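import Mathlib

/-!
Wilson primes of order `n`: two orders.
-/

set_option autoImplicit false

namespace Pool.Agent.N634.WP

open Finset

/-- `p` is a Wilson prime of order `n`, `1 ≤ n ≤ p`. -/
def IsWilson (p n : ℕ) : Prop :=
  p.Prime ∧ 1 ≤ n ∧ n ≤ p ∧
    (p : ℤ) ^ 2 ∣ ((n - 1).factorial : ℤ) * ((p - n).factorial : ℤ) - (-1) ^ n

/-- the product `n (n + 1) ⋯ (n + k - 1)` -/
def R {A : Type} [CommSemiring A] (x : A) : ℕ → A
  | 0 => 1
  | k + 1 => R x k * (x + k)

/-- the derivative of this product -/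
def Q {A : Type} [CommSemiring A] (x : A) : ℕ → A
  | 0 => 0
  | k + 1 => Q x k * (x + k) + R x k

theorem map_R {A B : Type} [CommSemiring A] [CommSemiring B] (f : A →+* B) (x : A) (k : ℕ) :
    f (R x k) = R (f x) k := by
  induction k with
  | zero => simp [R]
  | succ k ih => simp [R, ih]

theorem map_Q {A B : Type} [CommSemiring A] [CommSemiring B] (f : A →+* B) (x : A) (k : ℕ) :
    f (Q x k) = Q (f x) k := by
  induction k with
  | zero => simp [Q]
  | succ k ih => simp [Q, ih, map_R]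

theorem fac_R (n k : ℕ) (hn : 1 ≤ n) : (n + k - 1).factorial = (n - 1).factorial * R n k := by
  induction k with
  | zero => simp [R]
  | succ k ih =>
    have h1 : n + (k + 1) - 1 = (n + k - 1) + 1 := by omega
    rw [h1, Nat.factorial_succ, ih]
    have h2 : n + k - 1 + 1 = n + k := by omega
    rw [h2]
    change _ = (n - 1).factorial * (R n k * (n + ((k : ℕ) : ℕ)))
    ring

/-- the product of the `i - p` for `i = n, ..., n + k - 1` -/
def S (p : ℤ) (n : ℤ) : ℕ → ℤ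
  | 0 => 1
  | k + 1 => S p n k * (n + k - p)

theorem S_eq (p n : ℤ) (k : ℕ) : ∃ c : ℤ, S p n k = R n k - p * Q n k + p ^ 2 * c := by
  induction k with
  | zero => exact ⟨0, by simp [S, R, Q]⟩
  | succ k ih =>
    obtain ⟨c, hc⟩ := ih
    refine ⟨c * (n + k - p) + Q n k, ?_⟩
    change S p n k * (n + k - p) = R n k * (n + k) - p * (Q n k * (n + k) + R n k) + _
    rw [hc]
    ring

theorem fac_S (p n k : ℕ) (h : n + k ≤ p) :
    ((p - n).factorial : ℤ) = (-1) ^ k * ((p - (n + k)).factorial : ℤ) * S p n k := by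
  induction k with
  | zero => simp [S]
  | succ k ih =>
    rw [ih (by omega)]
    have h1 : p - (n + k) = (p - (n + (k + 1))) + 1 := by omega
    have h2 : ((p - (n + k)).factorial : ℤ) =
        ((p : ℤ) - n - k) * ((p - (n + (k + 1))).factorial : ℤ) := by
      rw [h1, Nat.factorial_succ]
      push_cast
      have h3 : ((p - (n + (k + 1)) : ℕ) : ℤ) + 1 = (p : ℤ) - n - k := by
        push_cast [Nat.cast_sub h]
        ring
      rw [h3]
    rw [h2]
    change _ = (-1) ^ (k + 1) * _ * (S p n k * ((n : ℤ) + k - p))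
    ring

/-- **Two orders of one prime.** -/
theorem dvd_Q {p n k : ℕ} (h1 : IsWilson p n) (h2 : IsWilson p (n + k)) :
    (p : ℤ) ∣ Q (n : ℤ) k := by
  obtain ⟨hp, hn, hnp, hd1⟩ := h1
  obtain ⟨-, -, hmp, hd2⟩ := h2
  have hp' : Prime (p : ℤ) := Nat.prime_iff_prime_int.1 hp
  set A : ℤ := ((n - 1).factorial : ℤ) * ((p - (n + k)).factorial : ℤ) with hA
  have e1 : ((n - 1).factorial : ℤ) * ((p - n).factorial : ℤ) = (-1) ^ k * A * S p n k := by
    rw [fac_S p n k hmp, hA]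
    ring
  have e2 : ((n + k - 1).factorial : ℤ) * ((p - (n + k)).factorial : ℤ) = A * R (n : ℤ) k := by
    rw [fac_R n k hn]
    push_cast
    have := map_R (Nat.castRingHom ℤ) n k
    rw [Nat.coe_castRingHom] at this
    rw [this, hA]
    ring
  obtain ⟨c, hc⟩ := S_eq p n k
  rw [e1, hc] at hd1
  rw [e2] at hd2
  have hcop : IsCoprime ((p : ℤ) ^ 2) A := by
    apply IsCoprime.pow_left
    rw [hA]
    apply IsCoprime.mul_right
    · rw [Nat.isCoprime_iff_coprime]
      exact (hp.coprime_iff_not_dvd).2 fun h => by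
        have := (hp.dvd_factorial).1 h
        omega
    · rw [Nat.isCoprime_iff_coprime]
      exact (hp.coprime_iff_not_dvd).2 fun h => by
        have := (hp.dvd_factorial).1 h
        omega
  have h3 : (p : ℤ) ^ 2 ∣ A * (p * Q (n : ℤ) k) := by
    obtain ⟨u, hu⟩ := hd1
    obtain ⟨v, hv⟩ := hd2
    refine ⟨A * c + v - (-1) ^ k * u, ?_⟩
    have h4 : ((-1 : ℤ)) ^ k * (-1) ^ k = 1 := by
      rw [← mul_pow]
      norm_num
    have h5 : ((-1 : ℤ)) ^ (n + k) = (-1) ^ n * (-1) ^ k := pow_add _ _ _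
    rw [h5] at hv
    linear_combination (-(-1) ^ k) * hu + hv + (A * (R (n : ℤ) k - p * Q (n : ℤ) k + p ^ 2 * c)) * h4
  have h4 : (p : ℤ) ^ 2 ∣ p * Q (n : ℤ) k := hcop.dvd_of_dvd_mul_left h3
  rw [pow_two] at h4
  exact (mul_dvd_mul_iff_left hp'.ne_zero).1 h4

/-- size of `Q` -/
theorem R_le (n k : ℕ) : R n k ≤ (n + k) ^ k := by
  induction k with
  | zero => simp [R]
  | succ k ih =>
    change R n k * (n + ((k : ℕ) : ℕ)) ≤ _
    calc R n k * (n + k) ≤ (n + k) ^ k * (n + k) := Nat.mul_le_mul_right _ ih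
      _ ≤ (n + (k + 1)) ^ k * (n + (k + 1)) := by gcongr <;> omega
      _ = (n + (k + 1)) ^ (k + 1) := by rw [pow_succ]

theorem Q_le (n k : ℕ) : Q n (k + 1) ≤ (k + 1) * (n + k) ^ k := by
  induction k with
  | zero => simp [Q, R]
  | succ k ih =>
    change Q n (k + 1) * (n + (((k + 1 : ℕ)) : ℕ)) + R n (k + 1) ≤ _
    have h1 := R_le n (k + 1)
    calc Q n (k + 1) * (n + (k + 1)) + R n (k + 1)
        ≤ (k + 1) * (n + k) ^ k * (n + (k + 1)) + (n + (k + 1)) ^ (k + 1) := by gcongr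
      _ ≤ (k + 1) * (n + (k + 1)) ^ k * (n + (k + 1)) + (n + (k + 1)) ^ (k + 1) := by
          gcongr
          omega
      _ = (k + 1 + 1) * (n + (k + 1)) ^ (k + 1) := by ring

theorem R_pos {n k : ℕ} (hn : 1 ≤ n) : 0 < R n k := by
  induction k with
  | zero => simp [R]
  | succ k ih =>
    change 0 < R n k * (n + ((k : ℕ) : ℕ))
    positivity

theorem Q_pos {n k : ℕ} (hn : 1 ≤ n) (hk : 1 ≤ k) : 0 < Q n k := by
  obtain ⟨k, rfl⟩ : ∃ l, k = l + 1 := ⟨k - 1, by omega⟩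
  change 0 < Q n k * (n + ((k : ℕ) : ℕ)) + R n k
  have := R_pos (k := k) hn
  positivity

theorem dvd_Q_nat {p n k : ℕ} (h1 : IsWilson p n) (h2 : IsWilson p (n + k)) : p ∣ Q n k := by
  have h := dvd_Q h1 h2
  have h3 := map_Q (Nat.castRingHom ℤ) n k
  rw [Nat.coe_castRingHom] at h3
  rw [← h3] at h
  exact_mod_cast h

/-- **At most `k - 1` primes are Wilson primes of the orders `n` and `n + k`.** -/
theorem two_orders {n k : ℕ} (hn : 1 ≤ n) (hk : 1 ≤ k) (s : Finset ℕ)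
    (hs : ∀ p ∈ s, IsWilson p n ∧ IsWilson p (n + k)) : s.card ≤ k - 1 := by
  by_contra hcon
  push Not at hcon
  obtain ⟨l, rfl⟩ : ∃ l, k = l + 1 := ⟨k - 1, by omega⟩
  have h1 : ∏ p ∈ s, p ∣ Q n (l + 1) :=
    Finset.prod_primes_dvd _ (fun p hp => Nat.prime_iff.1 (hs p hp).1.1) fun p hp =>
      dvd_Q_nat (hs p hp).1 (hs p hp).2
  have h2 : (n + (l + 1)) ^ s.card ≤ ∏ p ∈ s, p := by
    rw [← Finset.prod_const]
    exact Finset.prod_le_prod' fun p hp => (hs p hp).2.2.2.1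
  have h3 : (n + (l + 1)) ^ (l + 1) ≤ (n + (l + 1)) ^ s.card :=
    Nat.pow_le_pow_right (by omega) (by omega)
  have h4 := Nat.le_of_dvd (Q_pos hn (by omega)) h1
  have h5 := Q_le n l
  have h6 : (l + 1) * (n + l) ^ l < (n + (l + 1)) ^ (l + 1) := by
    rw [pow_succ, mul_comm]
    have h7 : (n + l) ^ l ≤ (n + (l + 1)) ^ l := Nat.pow_le_pow_left (by omega) _
    have h8 : 0 < (n + (l + 1)) ^ l := by positivity
    calc (n + l) ^ l * (l + 1) ≤ (n + (l + 1)) ^ l * (l + 1) := Nat.mul_le_mul_right _ h7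
      _ < (n + (l + 1)) ^ l * (n + (l + 1)) := Nat.mul_lt_mul_of_pos_left (by omega) h8
  omega

end Pool.Agent.N634.WP
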