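import Pool.Agent.N634.WP.Basic

/-!
Wilson primes of order `n`: counting.
-/

set_option autoImplicit false

namespace Pool.Agent.N634.WP

open Finset Filter Topology Polynomial
open scoped Classical

/-- the number of Wilson primes of order `n` up to `x` -/
noncomputable def cnt (n x : ℕ) : ℕ := ((range (x + 1)).filter fun p => IsWilson p n).card

/-- the number of primes up to `x` -/
noncomputable def prm (x : ℕ) : ℕ := ((range (x + 1)).filter Nat.Prime).card

theorem ch2 (l : ℕ) : (l + 1).choose 2 = l + l.choose 2 := by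
  have h := Nat.choose_succ_succ' l 1
  rw [Nat.choose_one_right] at h
  exact h

theorem ch3 (l : ℕ) : (l + 1).choose 3 = l.choose 2 + l.choose 3 := Nat.choose_succ_succ' l 2

theorem sum_gap (m : ℕ) : ∑ n ∈ Ico 1 m, (m - n - 1) = (m - 1).choose 2 := by
  induction m with
  | zero => simp
  | succ m ih =>
    rcases Nat.eq_zero_or_pos m with rfl | hm
    · simp
    · rw [Finset.sum_Ico_succ_top hm]
      have h1 : ∑ n ∈ Ico 1 m, (m + 1 - n - 1) = ∑ n ∈ Ico 1 m, ((m - n - 1) + 1) := by
        refine Finset.sum_congr rfl fun n hn => ?_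
        have := Finset.mem_Ico.1 hn
        omega
      rw [h1, Finset.sum_add_distrib, ih]
      obtain ⟨l, rfl⟩ : ∃ l, m = l + 1 := ⟨m - 1, by omega⟩
      simp only [Finset.sum_const, Nat.card_Ico, smul_eq_mul, mul_one, Nat.add_sub_cancel]
      rw [ch2]
      omega

theorem sum_choose (N : ℕ) : ∑ m ∈ Icc 1 N, (m - 1).choose 2 = N.choose 3 := by
  induction N with
  | zero => simp
  | succ N ih =>
    rw [Finset.sum_Icc_succ_top (by omega), ih, ch3, Nat.add_sub_cancel]
    omega

/-- **Wilson primes of different orders.** -/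
theorem sum_le (A : Finset ℕ) (N x : ℕ) (hA : ∀ n ∈ A, 1 ≤ n ∧ n ≤ N) :
    ∑ n ∈ A, cnt n x ≤ prm x + N.choose 3 := by
  set P := (range (x + 1)).filter Nat.Prime with hP
  have h1 : ∑ n ∈ A, cnt n x = ∑ p ∈ P, (A.filter fun n => IsWilson p n).card := by
    have h2 : ∀ n, cnt n x = ∑ p ∈ P, if IsWilson p n then 1 else 0 := by
      intro n
      rw [← Finset.card_filter, hP, Finset.filter_filter]
      unfold cnt
      congr 1
      ext p
      simp only [Finset.mem_filter]
      constructor
      · rintro ⟨h, h'⟩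
        exact ⟨h, h'.1, h'⟩
      · rintro ⟨h, -, h'⟩
        exact ⟨h, h'⟩
    simp_rw [h2]
    rw [Finset.sum_comm]
    refine Finset.sum_congr rfl fun p _ => ?_
    rw [Finset.card_filter]
  set T : Finset (ℕ × ℕ) := ((Icc 1 N) ×ˢ (Icc 1 N)).filter fun y => y.1 < y.2 with hT
  have h3 : ∀ p, (A.filter fun n => IsWilson p n).card ≤
      1 + (T.filter fun y => IsWilson p y.1 ∧ IsWilson p y.2).card := by
    intro p
    set B := A.filter fun n => IsWilson p n with hB
    rcases B.eq_empty_or_nonempty with h | h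
    · rw [h]
      simp
    · have h4 : (B.erase (B.min' h)).card ≤
          (T.filter fun y => IsWilson p y.1 ∧ IsWilson p y.2).card := by
        refine Finset.card_le_card_of_injOn (fun m => (B.min' h, m)) ?_ ?_
        · intro m hm
          have hm' := Finset.mem_erase.1 (Finset.mem_coe.1 hm)
          have hmin := B.min'_mem h
          have h5 := Finset.mem_filter.1 hmin
          have h6 := Finset.mem_filter.1 hm'.2
          have h7 := B.min'_le m hm'.2
          have h8 := hA _ h5.1
          have h9 := hA _ h6.1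
          rw [Finset.mem_coe, Finset.mem_filter, hT, Finset.mem_filter, Finset.mem_product,
            Finset.mem_Icc, Finset.mem_Icc]
          refine ⟨⟨⟨⟨h8.1, h8.2⟩, ⟨h9.1, h9.2⟩⟩, lt_of_le_of_ne h7 (Ne.symm hm'.1)⟩, h5.2, h6.2⟩
        · intro m _ m' _ h
          exact (Prod.mk.inj h).2
      rw [Finset.card_erase_of_mem (B.min'_mem h)] at h4
      omega
  rw [h1]
  refine (Finset.sum_le_sum fun p _ => h3 p).trans ?_
  rw [Finset.sum_add_distrib, Finset.sum_const, smul_eq_mul, mul_one]
  refine Nat.add_le_add_left ?_ _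
  have h5 : ∑ p ∈ P, (T.filter fun y => IsWilson p y.1 ∧ IsWilson p y.2).card =
      ∑ y ∈ T, (P.filter fun p => IsWilson p y.1 ∧ IsWilson p y.2).card := by
    simp_rw [Finset.card_filter]
    rw [Finset.sum_comm]
  rw [h5]
  have h6 : ∀ y ∈ T, (P.filter fun p => IsWilson p y.1 ∧ IsWilson p y.2).card ≤
      y.2 - y.1 - 1 := by
    intro y hy
    rw [hT, Finset.mem_filter, Finset.mem_product, Finset.mem_Icc, Finset.mem_Icc] at hy
    obtain ⟨⟨⟨h7, -⟩, -⟩, h8⟩ := hy
    refine two_orders (n := y.1) (k := y.2 - y.1) h7 (by omega) _ fun p hp => ?_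
    have h9 := (Finset.mem_filter.1 hp).2
    have h10 : y.1 + (y.2 - y.1) = y.2 := by omega
    rw [h10]
    exact h9
  refine (Finset.sum_le_sum h6).trans (le_of_eq ?_)
  have h7 : ∑ y ∈ T, (y.2 - y.1 - 1) = ∑ m ∈ Icc 1 N, ∑ n ∈ Ico 1 m, (m - n - 1) := by
    rw [hT, Finset.sum_filter, Finset.sum_product_right]
    refine Finset.sum_congr rfl fun m hm => ?_
    rw [← Finset.sum_filter]
    refine Finset.sum_congr ?_ fun _ _ => rfl
    ext n
    rw [Finset.mem_filter, Finset.mem_Icc, Finset.mem_Ico]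
    have := Finset.mem_Icc.1 hm
    omega
  rw [h7]
  simp_rw [sum_gap]
  exact sum_choose N

theorem prm_tendsto : Tendsto (fun x : ℕ => (prm x : ℝ)) atTop atTop := by
  refine tendsto_natCast_atTop_atTop.comp (tendsto_atTop_atTop.2 fun b => ?_)
  obtain ⟨s, hs1, hs2⟩ := Nat.infinite_setOfPred_prime.exists_subset_card_eq b
  refine ⟨s.sup id, fun x hx => ?_⟩
  rw [← hs2]
  refine Finset.card_le_card fun p hp => ?_
  rw [Finset.mem_filter, Finset.mem_range]
  have h1 : p ≤ s.sup id := Finset.le_sup (f := id) hp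
  exact ⟨by omega, hs1 hp⟩

/-- **Lower densities.** -/
theorem density (c : ℝ) (hc : 0 < c) :
    {n : ℕ | 1 ≤ n ∧ ∀ᶠ x : ℕ in atTop, c * prm x ≤ cnt n x}.Finite ∧
      c * ({n : ℕ | 1 ≤ n ∧ ∀ᶠ x : ℕ in atTop, c * prm x ≤ cnt n x}.ncard : ℝ) ≤ 1 := by
  set D := {n : ℕ | 1 ≤ n ∧ ∀ᶠ x : ℕ in atTop, c * prm x ≤ cnt n x} with hD
  have h1 : ∀ A : Finset ℕ, (A : Set ℕ) ⊆ D → c * (A.card : ℝ) ≤ 1 := by
    intro A hA
    have h2 : ∀ᶠ x : ℕ in atTop, ∀ n ∈ A, c * prm x ≤ cnt n x := by
      rw [Filter.eventually_all_finset]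
      exact fun n hn => (hA hn).2
    have h3 : ∀ᶠ x : ℕ in atTop, c * (A.card : ℝ) ≤
        1 + ((A.sup id).choose 3 : ℝ) / prm x := by
      filter_upwards [h2, prm_tendsto.eventually_gt_atTop 0] with x hx hx0
      have h4 := sum_le A (A.sup id) x fun n hn => ⟨(hA hn).1, Finset.le_sup (f := id) hn⟩
      have h5 : (∑ n ∈ A, (cnt n x : ℝ)) ≤ prm x + ((A.sup id).choose 3 : ℝ) := by
        exact_mod_cast h4
      have h6 : (A.card : ℝ) * (c * prm x) ≤ ∑ n ∈ A, (cnt n x : ℝ) := by
        rw [← nsmul_eq_mul, ← Finset.sum_const]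
        exact Finset.sum_le_sum hx
      have h7 : c * (A.card : ℝ) * prm x ≤ prm x + ((A.sup id).choose 3 : ℝ) := by
        calc c * (A.card : ℝ) * prm x = (A.card : ℝ) * (c * prm x) := by ring
          _ ≤ _ := h6.trans h5
      rw [← le_div_iff₀ hx0] at h7
      rwa [add_div, div_self hx0.ne'] at h7
    have h8 : Tendsto (fun x : ℕ => 1 + ((A.sup id).choose 3 : ℝ) / prm x) atTop (𝓝 (1 + 0)) :=
      tendsto_const_nhds.add (prm_tendsto.const_div_atTop _)
    rw [add_zero] at h8
    exact ge_of_tendsto h8 h3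
  have hfin : D.Finite := by
    by_contra hinf
    obtain ⟨m, hm⟩ := exists_nat_gt (1 / c)
    obtain ⟨A, hA1, hA2⟩ := (show D.Infinite from hinf).exists_subset_card_eq m
    have h2 := h1 A hA1
    rw [hA2] at h2
    rw [div_lt_iff₀ hc] at hm
    linarith
  refine ⟨hfin, ?_⟩
  have h2 := h1 hfin.toFinset (by rw [hfin.coe_toFinset])
  rwa [Set.ncard_eq_toFinset_card _ hfin]

/-- **Two orders with almost all primes.** -/
theorem cofinite_unique (n m : ℕ) (hn : 1 ≤ n) (hm : 1 ≤ m)
    (h1 : {p : ℕ | p.Prime ∧ ¬ IsWilson p n}.Finite)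
    (h2 : {p : ℕ | p.Prime ∧ ¬ IsWilson p m}.Finite) : n = m := by
  wlog hlt : n < m generalizing n m
  · rcases Nat.lt_trichotomy n m with h | h | h
    · exact absurd h hlt
    · exact h
    · exact (this m n hm hn h2 h1 h).symm
  exfalso
  have h3 : {p : ℕ | IsWilson p n ∧ IsWilson p m}.Infinite := by
    have h4 : {p : ℕ | p.Prime} ⊆ {p : ℕ | IsWilson p n ∧ IsWilson p m} ∪
        ({p : ℕ | p.Prime ∧ ¬ IsWilson p n} ∪ {p : ℕ | p.Prime ∧ ¬ IsWilson p m}) := by
      intro p hp
      by_cases h5 : IsWilson p n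
      · by_cases h6 : IsWilson p m
        · exact Or.inl ⟨h5, h6⟩
        · exact Or.inr (Or.inr ⟨hp, h6⟩)
      · exact Or.inr (Or.inl ⟨hp, h5⟩)
    intro h5
    exact Nat.infinite_setOfPred_prime ((h5.union (h1.union h2)).subset h4)
  obtain ⟨s, hs1, hs2⟩ := h3.exists_subset_card_eq (m - n)
  have h6 := two_orders (n := n) (k := m - n) hn (by omega) s fun p hp => by
    have h7 := hs1 hp
    have h8 : n + (m - n) = m := by omega
    rw [h8]
    exact h7
  omega

/-- the two orders, as sets -/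
theorem two_orders_set (n m : ℕ) (hn : 1 ≤ n) (hm : n < m) :
    {p : ℕ | IsWilson p n ∧ IsWilson p m}.Finite ∧
      {p : ℕ | IsWilson p n ∧ IsWilson p m}.ncard ≤ m - n - 1 := by
  have h0 : ∀ s : Finset ℕ, (s : Set ℕ) ⊆ {p : ℕ | IsWilson p n ∧ IsWilson p m} →
      s.card ≤ m - n - 1 := by
    intro s hs
    refine two_orders (n := n) (k := m - n) hn (by omega) s fun p hp => ?_
    have h8 : n + (m - n) = m := by omega
    rw [h8]
    exact hs hp
  have hfin : {p : ℕ | IsWilson p n ∧ IsWilson p m}.Finite := by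
    by_contra hinf
    obtain ⟨s, hs1, hs2⟩ := (show Set.Infinite _ from hinf).exists_subset_card_eq (m - n)
    have := h0 s hs1
    omega
  refine ⟨hfin, ?_⟩
  rw [Set.ncard_eq_toFinset_card _ hfin]
  exact h0 _ (by rw [hfin.coe_toFinset])

/-! ### one prime -/

theorem R_zero {A : Type} [CommSemiring A] (k : ℕ) : R (0 : A) (k + 1) = 0 := by
  induction k with
  | zero => simp [R]
  | succ k ih =>
    change R (0 : A) (k + 1) * _ = 0
    rw [ih, zero_mul]

theorem Q_zero {A : Type} [CommSemiring A] (k : ℕ) : Q (0 : A) (k + 1) = (k.factorial : A) := by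
  induction k with
  | zero => simp [Q, R]
  | succ k ih =>
    change Q (0 : A) (k + 1) * (0 + ((k + 1 : ℕ) : A)) + R (0 : A) (k + 1) = _
    rw [ih, R_zero, add_zero, zero_add, Nat.factorial_succ]
    push_cast
    ring

theorem deg_R {p : ℕ} [Fact p.Prime] (k : ℕ) : (R (X : (ZMod p)[X]) k).natDegree ≤ k := by
  induction k with
  | zero => simp [R]
  | succ k ih =>
    change (R (X : (ZMod p)[X]) k * (X + (k : (ZMod p)[X]))).natDegree ≤ _
    refine Polynomial.natDegree_mul_le.trans (Nat.add_le_add ih ?_)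
    rw [← Polynomial.C_eq_natCast]
    exact (Polynomial.natDegree_X_add_C _).le

theorem deg_Q {p : ℕ} [Fact p.Prime] (k : ℕ) : (Q (X : (ZMod p)[X]) (k + 1)).natDegree ≤ k := by
  induction k with
  | zero => simp [Q, R]
  | succ k ih =>
    change (Q (X : (ZMod p)[X]) (k + 1) * (X + ((k + 1 : ℕ) : (ZMod p)[X])) +
      R (X : (ZMod p)[X]) (k + 1)).natDegree ≤ _
    refine (Polynomial.natDegree_add_le _ _).trans (max_le ?_ (deg_R _))
    refine Polynomial.natDegree_mul_le.trans (Nat.add_le_add ih ?_)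
    rw [← Polynomial.C_eq_natCast]
    exact (Polynomial.natDegree_X_add_C _).le

theorem roots_le {p N k : ℕ} (u : ℕ) (hp : p.Prime) (hN : N ≤ p) (hk : 1 ≤ k) (hkp : k ≤ p) :
    ((Ioc u (u + N)).filter fun n => p ∣ Q n k).card ≤ k - 1 := by
  have := Fact.mk hp
  obtain ⟨l, rfl⟩ : ∃ l, k = l + 1 := ⟨k - 1, by omega⟩
  set F : (ZMod p)[X] := Q X (l + 1) with hF
  have hev : ∀ a : ZMod p, F.eval a = Q a (l + 1) := by
    intro a
    have := map_Q (Polynomial.evalRingHom a) X (l + 1)
    rw [Polynomial.coe_evalRingHom, Polynomial.eval_X] at this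
    exact this
  have hF0 : F ≠ 0 := by
    intro h
    have h1 := hev 0
    rw [h, Polynomial.eval_zero, Q_zero] at h1
    have h2 : p ∣ l.factorial := (ZMod.natCast_eq_zero_iff _ _).1 h1.symm
    have := (hp.dvd_factorial).1 h2
    omega
  have h1 : ((Ioc u (u + N)).filter fun n => p ∣ Q n (l + 1)).card ≤ F.roots.toFinset.card := by
    refine Finset.card_le_card_of_injOn (fun n : ℕ => (n : ZMod p)) ?_ ?_
    · intro n hn
      have hn' := (Finset.mem_filter.1 (Finset.mem_coe.1 hn)).2
      rw [Finset.mem_coe, Multiset.mem_toFinset, Polynomial.mem_roots hF0, Polynomial.IsRoot.def,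
        hev]
      have h3 := map_Q (Nat.castRingHom (ZMod p)) n (l + 1)
      rw [Nat.coe_castRingHom] at h3
      rw [← h3]
      exact (ZMod.natCast_eq_zero_iff _ _).2 hn'
    · intro a ha b hb hab
      have ha' := Finset.mem_Ioc.1 (Finset.mem_filter.1 (Finset.mem_coe.1 ha)).1
      have hb' := Finset.mem_Ioc.1 (Finset.mem_filter.1 (Finset.mem_coe.1 hb)).1
      have h3 : (a : ZMod p) = (b : ZMod p) := hab
      rw [ZMod.natCast_eq_natCast_iff] at h3
      by_contra hne
      rcases Nat.lt_or_gt_of_ne hne with h | h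
      · have h4 := (Nat.modEq_iff_dvd' h.le).1 h3
        have h5 := Nat.le_of_dvd (by omega) h4
        omega
      · have h4 := (Nat.modEq_iff_dvd' h.le).1 h3.symm
        have h5 := Nat.le_of_dvd (by omega) h4
        omega
  refine h1.trans ((Multiset.toFinset_card_le _).trans ((Polynomial.card_roots' F).trans ?_))
  have := deg_Q (p := p) l
  simpa using this

/-- **The orders of one prime.** -/
theorem orders_le {p N K : ℕ} (u : ℕ) (hN : N ≤ p) :
    K * (((Ioc u (u + N)).filter fun n => IsWilson p n).card) ≤ K + K * K.choose 2 + N := by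
  set A := (Ioc u (u + N)).filter fun n => IsWilson p n with hA
  rcases A.eq_empty_or_nonempty with h | h
  · rw [h]
    simp
  have hp : p.Prime := by
    obtain ⟨n, hn⟩ := h
    exact (Finset.mem_filter.1 hn).2.1
  set M := A.max' h with hM
  set B := A.filter fun n => ∃ k, 1 ≤ k ∧ k ≤ K ∧ n + k ∈ A with hB
  set C := (A.erase M).filter fun n => ¬ ∃ k, 1 ≤ k ∧ k ≤ K ∧ n + k ∈ A with hC
  have hAle : A.card ≤ 1 + B.card + C.card := by
    have h1 : A ⊆ {M} ∪ B ∪ C := by
      intro n hn
      by_cases h2 : n = M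
      · simp [h2]
      · by_cases h3 : ∃ k, 1 ≤ k ∧ k ≤ K ∧ n + k ∈ A
        · refine Finset.mem_union_left _ (Finset.mem_union_right _ ?_)
          rw [hB, Finset.mem_filter]
          exact ⟨hn, h3⟩
        · refine Finset.mem_union_right _ ?_
          rw [hC, Finset.mem_filter, Finset.mem_erase]
          exact ⟨⟨h2, hn⟩, h3⟩
    refine (Finset.card_le_card h1).trans ((Finset.card_union_le _ _).trans ?_)
    have := Finset.card_union_le {M} B
    rw [Finset.card_singleton] at this
    omega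
  have hBle : B.card ≤ K.choose 2 := by
    have h1 : B ⊆ (Icc 1 K).biUnion fun k => A.filter fun n => n + k ∈ A := by
      intro n hn
      obtain ⟨h2, k, hk1, hk2, hk3⟩ := Finset.mem_filter.1 hn
      rw [Finset.mem_biUnion]
      exact ⟨k, Finset.mem_Icc.2 ⟨hk1, hk2⟩, Finset.mem_filter.2 ⟨h2, hk3⟩⟩
    refine (Finset.card_le_card h1).trans (Finset.card_biUnion_le.trans ?_)
    have h2 : ∀ k ∈ Icc 1 K, (A.filter fun n => n + k ∈ A).card ≤ k - 1 := by
      intro k hk
      have hk' := Finset.mem_Icc.1 hk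
      rcases (A.filter fun n => n + k ∈ A).eq_empty_or_nonempty with h3 | ⟨n0, h3⟩
      · rw [h3]
        simp
      · have hkp : k ≤ p := by
          have h4 := (Finset.mem_filter.1 h3).2
          have h5 := (Finset.mem_filter.1 h4).2.2.2.1
          omega
        refine le_trans (Finset.card_le_card fun n hn => ?_) (roots_le u hp hN hk'.1 hkp)
        obtain ⟨h4, h5⟩ := Finset.mem_filter.1 hn
        rw [Finset.mem_filter]
        exact ⟨(Finset.mem_filter.1 h4).1, dvd_Q_nat (Finset.mem_filter.1 h4).2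
          (Finset.mem_filter.1 h5).2⟩
    refine (Finset.sum_le_sum h2).trans (le_of_eq ?_)
    clear * -
    induction K with
    | zero => simp
    | succ K ih =>
      rw [Finset.sum_Icc_succ_top (by omega), ih, ch2, Nat.add_sub_cancel]
      omega
  have hCle : C.card * K ≤ N := by
    have h1 : (C ×ˢ Icc 1 K).card ≤ (Ioc u (u + N)).card := by
      refine Finset.card_le_card_of_injOn (fun y : ℕ × ℕ => y.1 + y.2) ?_ ?_
      · rintro ⟨n, k⟩ hy
        rw [Finset.mem_coe, Finset.mem_product] at hy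
        obtain ⟨h2, h3⟩ := hy
        rw [hC, Finset.mem_filter, Finset.mem_erase] at h2
        obtain ⟨⟨h4, h5⟩, h6⟩ := h2
        have h7 := A.le_max' n h5
        have h8 : M ∈ A := A.max'_mem h
        have h9 := (Finset.mem_Ioc.1 (Finset.mem_filter.1 h8).1).2
        have h5' := (Finset.mem_Ioc.1 (Finset.mem_filter.1 h5).1).1
        have h10 := Finset.mem_Icc.1 h3
        have h11 : n + K < M := by
          by_contra hcon
          push Not at hcon
          refine h6 ⟨M - n, by omega, by omega, ?_⟩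
          have : n + (M - n) = M := by omega
          rw [this]
          exact h8
        rw [Finset.mem_coe, Finset.mem_Ioc]
        simp only at h10 ⊢
        omega
      · rintro ⟨n, k⟩ hy ⟨n', k'⟩ hy' heq
        rw [Finset.mem_coe, Finset.mem_product] at hy hy'
        obtain ⟨h2, h3⟩ := hy
        obtain ⟨h2', h3'⟩ := hy'
        rw [hC, Finset.mem_filter, Finset.mem_erase] at h2 h2'
        have h10 := Finset.mem_Icc.1 h3
        have h10' := Finset.mem_Icc.1 h3'
        simp only at heq h10 h10' h2 h2'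
        rcases Nat.lt_trichotomy n n' with h | h | h
        · exfalso
          refine h2.2 ⟨n' - n, by omega, by omega, ?_⟩
          have : n + (n' - n) = n' := by omega
          rw [this]
          exact h2'.1.2
        · subst h
          have : k = k' := by omega
          rw [this]
        · exfalso
          refine h2'.2 ⟨n - n', by omega, by omega, ?_⟩
          have : n' + (n - n') = n := by omega
          rw [this]
          exact h2.1.2
    rw [Finset.card_product, Nat.card_Icc, Nat.card_Ioc] at h1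
    simpa using h1
  calc K * A.card ≤ K * (1 + B.card + C.card) := Nat.mul_le_mul_left _ hAle
    _ = K + K * B.card + C.card * K := by ring
    _ ≤ K + K * K.choose 2 + N := by
        gcongr

/-- the same with an exponent -/
theorem orders_rpow {p N : ℕ} (u : ℕ) (hN1 : 1 ≤ N) (hN : N ≤ p) :
    (((Ioc u (u + N)).filter fun n => IsWilson p n).card : ℝ) ≤ 3 * (N : ℝ) ^ (2 / 3 : ℝ) := by
  set t : ℝ := (N : ℝ) ^ (1 / 3 : ℝ) with ht
  have hN' : (1 : ℝ) ≤ N := by exact_mod_cast hN1
  have ht1 : 1 ≤ t := Real.one_le_rpow hN' (by norm_num)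
  have ht2 : t ^ 2 = (N : ℝ) ^ (2 / 3 : ℝ) := by
    rw [ht, ← Real.rpow_natCast, ← Real.rpow_mul (by positivity)]
    norm_num
  have ht3 : t ^ 3 = N := by
    rw [ht, ← Real.rpow_natCast, ← Real.rpow_mul (by positivity)]
    norm_num
  set K : ℕ := ⌈t⌉₊ with hK
  have hK1 : 1 ≤ K := Nat.one_le_ceil_iff.2 (by linarith)
  have hKt : t ≤ K := Nat.le_ceil t
  have hKt' : (K : ℝ) < t + 1 := Nat.ceil_lt_add_one (by linarith)
  have h1 := orders_le (p := p) (K := K) u hN
  set a := ((Ioc u (u + N)).filter fun n => IsWilson p n).card with ha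
  have h2 : (K.choose 2 : ℝ) = K * (K - 1) / 2 := Nat.cast_choose_two ℝ K
  have h3 : (K : ℝ) * a ≤ K + K * (K * (K - 1) / 2) + N := by
    rw [← h2]
    exact_mod_cast h1
  have hK0 : (0 : ℝ) < K := by linarith
  rw [← ht2]
  have h4 : (K : ℝ) * a ≤ K * (1 + K * (K - 1) / 2 + t ^ 2) := by
    have h5 : (N : ℝ) ≤ K * t ^ 2 := by
      rw [← ht3]
      nlinarith [sq_nonneg t]
    nlinarith
  have h6 : (a : ℝ) ≤ 1 + K * (K - 1) / 2 + t ^ 2 := le_of_mul_le_mul_left h4 hK0
  have h7 : (K : ℝ) * (K - 1) ≤ (t + 1) * t := by nlinarith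
  nlinarith

end Pool.Agent.N634.WP
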